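import Mathlib
import Pool.Agent.X34.E.E20

/-! Gaps between consecutive primes in the intervals of an arbitrary partition into intervals of length at
least `X ^ θ` (helper790). -/

set_option autoImplicit false

open Finset Filter

namespace Pool.Agent.N790.WG

open Pool.Agent.H95R2.BG.LF Pool.Agent.X34.E

theorem find_i (u : ℕ → ℕ) (R p : ℕ) (h0 : u 0 < p) (hR : p ≤ u R) :
    ∃ i < R, u i < p ∧ p ≤ u (i + 1) := by
  induction R with
  | zero => omega
  | succ R ih =>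
    by_cases h : p ≤ u R
    · obtain ⟨i, hi, h1⟩ := ih h
      exact ⟨i, by omega, h1⟩
    · exact ⟨R, by omega, by omega, hR⟩

theorem tele (u : ℕ → ℕ) (R : ℕ) (hm : ∀ i < R, u i ≤ u (i + 1)) :
    ∑ i ∈ range R, ((u (i + 1) : ℝ) - u i) = u R - u 0 ∧ u 0 ≤ u R := by
  induction R with
  | zero => simp
  | succ R ih =>
    obtain ⟨h1, h2⟩ := ih (fun i hi => hm i (by omega))
    rw [sum_range_succ, h1]
    exact ⟨by ring, h2.trans (hm R (by omega))⟩

open Classical in
theorem windows (hE : Eng) (θ : ℝ) (hθ : 0 < θ) (hθ1 : θ ≤ 1) (M a : ℕ) (hM0 : 0 < M) (ha : a.Coprime M)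
    (G : Finset ℕ) (hG : G.card = 45)
    (hadm : ∀ p : ℕ, p.Prime → ¬ p ∣ M → ∃ r : ℕ, ∀ g ∈ G, ¬ p ∣ r + g) :
    ∃ c : ℝ, 0 < c ∧ ∀ᶠ X : ℕ in atTop, ∃ g ∈ G, ∃ g' ∈ G, g < g' ∧
      ∀ (R : ℕ) (u : ℕ → ℕ), u 0 ≤ X → 3 * X ≤ u R → u R ≤ 4 * X →
        (∀ i < R, (X : ℝ) ^ θ ≤ (u (i + 1) : ℝ) - u i ∧ u (i + 1) ≤ u i + X) →
        c * X ≤ ∑ i ∈ (range R).filter (fun i => c * ((u (i + 1) : ℝ) - u i) / Real.log X ^ 45 ≤
          (Set.ncard {p : ℕ | u i < p ∧ p + (g' - g) * M ≤ u (i + 1) ∧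
            Follow M a ((g' - g) * M) p} : ℝ)), ((u (i + 1) : ℝ) - u i) := by
  obtain ⟨κ, hκ, hgr⟩ := gaps_rough hE
  obtain ⟨c₀, hc₀, hlow⟩ := hgr M a hM0 ha G hG hadm
  obtain ⟨C, hC, hup⟩ := rough_upper (K := 45) (by norm_num) _ _ (adm_G M hM0 G hG hadm) κ θ hκ hθ hθ1
  obtain ⟨L, hL⟩ : ∃ L : ℕ, ∀ g ∈ G, g ≤ L :=
    ⟨G.sup id, fun g hg => Finset.le_sup (f := id) hg⟩
  have hlogN : Tendsto (fun N : ℕ => Real.log (N : ℝ)) atTop atTop :=
    Real.tendsto_log_atTop.comp tendsto_natCast_atTop_atTop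
  have hsmall : ∀ᶠ X : ℕ in atTop, (8 * (L * M + 1) / c₀ + 1) * Real.log X ^ 45 ≤ (X : ℝ) ^ θ :=
    Pool.Agent.TH464.PW.logpow_rpow 45 (8 * (L * M + 1) / c₀ + 1) θ (by positivity) hθ
  have hbig : ∀ᶠ X : ℕ in atTop, ((L * M + 3 : ℕ) : ℝ) ≤ (X : ℝ) ^ θ :=
    ((tendsto_rpow_atTop hθ).comp tendsto_natCast_atTop_atTop).eventually_ge_atTop _
  refine ⟨min (c₀ / 16) (c₀ / (4 * C)), by positivity, ?_⟩
  filter_upwards [tendsto_natCast_atTop_atTop.eventually hlow, hup, hlogN.eventually_ge_atTop 1, hsmall,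
    hbig, eventually_ge_atTop (L * M + 3)] with X h1 h2 h3 h4 h5 h6
  obtain ⟨g, hg, g', hg', hgg, h1⟩ := h1
  refine ⟨g, hg, g', hg', hgg, ?_⟩
  intro R u hu0 huR huR4 hlen
  set c : ℝ := min (c₀ / 16) (c₀ / (4 * C)) with hc
  have hcpos : 0 < c := by positivity
  obtain ⟨h, hh⟩ : ∃ h : ℕ, h = (g' - g) * M := ⟨_, rfl⟩
  rw [← hh] at h1 ⊢
  have hhL : h ≤ L * M := by
    rw [hh]
    exact Nat.mul_le_mul_right _ ((Nat.sub_le _ _).trans (hL g' hg'))
  have hMg : M * g ≤ L * M := by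
    rw [mul_comm]
    exact Nat.mul_le_mul_right _ (hL g hg)
  have hX0 : (0 : ℝ) < X := by exact_mod_cast (by omega : 0 < X)
  have hXθ : 0 < (X : ℝ) ^ θ := Real.rpow_pos_of_pos hX0 _
  have hmono : ∀ i < R, u i ≤ u (i + 1) := by
    intro i hi
    have e1 := (hlen i hi).1
    have e2 : (u i : ℝ) ≤ u (i + 1) := by linarith
    exact_mod_cast e2
  obtain ⟨htele, -⟩ := tele u R hmono
  obtain ⟨Lam, hLam⟩ : ∃ Lam : ℝ, Lam = Real.log X ^ 45 := ⟨_, rfl⟩
  have hLam0 : 0 < Lam := by rw [hLam]; positivity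
  have hRθ : (R : ℝ) * (X : ℝ) ^ θ ≤ 4 * X := by
    have e1 : ∑ _i ∈ range R, (X : ℝ) ^ θ ≤ ∑ i ∈ range R, ((u (i + 1) : ℝ) - u i) :=
      sum_le_sum fun i hi => (hlen i (mem_range.1 hi)).1
    rw [sum_const, card_range, nsmul_eq_mul, htele] at e1
    have e2 : (u R : ℝ) ≤ 4 * X := by exact_mod_cast huR4
    have e3 : (0 : ℝ) ≤ u 0 := Nat.cast_nonneg _
    linarith
  -- the counts
  set F : ℕ → Finset ℕ := fun i => (range (3 * X)).filter (fun p => u i < p ∧ p + h ≤ u (i + 1) ∧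
    Follow M a h p ∧ M * g + X < p ∧
      ∀ g'' ∈ G, ∀ q : ℕ, q.Prime → (q : ℝ) ≤ (X : ℝ) ^ κ → ¬ q ∣ p - M * g + M * g'')
    with hF
  have hcov : {n : ℕ | (X : ℝ) < n ∧ ((n + M * g + h : ℕ) : ℝ) < 3 * X ∧ Follow M a h (n + M * g) ∧
      ∀ g'' ∈ G, ∀ p : ℕ, p.Prime → (p : ℝ) ≤ (X : ℝ) ^ κ → ¬ p ∣ n + M * g''} ⊆
      (((range R).biUnion (fun i => (F i).image (fun p => p - M * g))) ∪
        ((range R).biUnion (fun i => (range h).image (fun j => u (i + 1) - M * g - j))) :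
          Finset ℕ) := by
    rintro n ⟨hn1, hn2, hn3, hn4⟩
    have hn1' : X < n := by exact_mod_cast hn1
    have hn2' : n + M * g + h < 3 * X := by exact_mod_cast hn2
    obtain ⟨i, hiR, hi1, hi2⟩ := find_i u R (n + M * g) (by omega) (by omega)
    rw [coe_union, Set.mem_union, mem_coe, mem_coe, mem_biUnion, mem_biUnion]
    by_cases hcr : n + M * g + h ≤ u (i + 1)
    · left
      refine ⟨i, mem_range.2 hiR, mem_image.2 ⟨n + M * g, ?_, by omega⟩⟩
      rw [hF, mem_filter, mem_range]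
      refine ⟨by omega, hi1, hcr, hn3, by omega, ?_⟩
      intro g'' hg'' q hq hqX
      have e1 : n + M * g - M * g = n := by omega
      rw [e1]
      exact hn4 g'' hg'' q hq hqX
    · right
      refine ⟨i, mem_range.2 hiR, mem_image.2 ⟨u (i + 1) - M * g - n, ?_, ?_⟩⟩
      · rw [mem_range]
        omega
      · omega
  have hfin1 : (Set.ncard {n : ℕ | (X : ℝ) < n ∧ ((n + M * g + h : ℕ) : ℝ) < 3 * X ∧ Follow M a h (n + M * g) ∧
      ∀ g'' ∈ G, ∀ p : ℕ, p.Prime → (p : ℝ) ≤ (X : ℝ) ^ κ → ¬ p ∣ n + M * g''} : ℝ) ≤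
      ∑ i ∈ range R, ((F i).card : ℝ) + R * h := by
    have e1 := Set.ncard_le_ncard hcov (Finset.finite_toSet _)
    rw [Set.ncard_coe_finset] at e1
    have e2 : (((range R).biUnion (fun i => (F i).image (fun p => p - M * g))) ∪
        ((range R).biUnion (fun i => (range h).image (fun j => u (i + 1) - M * g - j)))).card ≤
        ∑ i ∈ range R, (F i).card + R * h := by
      refine (card_union_le _ _).trans (Nat.add_le_add ?_ ?_)
      · exact card_biUnion_le.trans (sum_le_sum fun m _ => card_image_le)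
      · refine card_biUnion_le.trans ?_
        calc ∑ i ∈ range R, ((range h).image (fun j => u (i + 1) - M * g - j)).card ≤
            ∑ _i ∈ range R, h := sum_le_sum fun m _ => card_image_le.trans (card_range h).le
          _ = R * h := by rw [sum_const, card_range, smul_eq_mul]
    exact_mod_cast e1.trans e2
  have hupm : ∀ i ∈ range R, ((F i).card : ℝ) ≤ C * (((u (i + 1) : ℝ) - u i) / Lam) := by
    intro i hi
    rw [mem_range] at hi
    obtain ⟨hl1, hl2⟩ := hlen i hi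
    have hm := hmono i hi
    by_cases hi3 : u i ≤ 3 * X
    · have hinj : Set.InjOn (fun p => p - M * g) (F i : Set ℕ) := by
        intro p hp p' hp' he
        rw [mem_coe, hF, mem_filter] at hp hp'
        obtain ⟨-, -, -, -, h7, -⟩ := hp
        obtain ⟨-, -, -, -, h8, -⟩ := hp'
        simp only at he
        omega
      have hHcast : ((u (i + 1) - u i : ℕ) : ℝ) = (u (i + 1) : ℝ) - u i := by
        rw [Nat.cast_sub hm]
      -- split according to `M g ≤ u i`
      have e1 : (F i).card ≤ ((Ioc (u i - M * g) (u i - M * g + (u (i + 1) - u i))).filter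
          (fun n => RoughL κ X (fun _ : Fin 45 => 1) (fun i => M * G.orderEmbOfFin hG i) n)).card := by
        rw [← card_image_of_injOn hinj]
        apply card_le_card
        intro n hn
        obtain ⟨p, hp, rfl⟩ := mem_image.1 hn
        rw [hF, mem_filter, mem_range] at hp
        obtain ⟨h7, h8, h9, h10, h11, h12⟩ := hp
        rw [mem_filter, mem_Ioc]
        exact ⟨⟨by omega, by omega⟩, rough_G M G hG κ X _ h12⟩
      refine le_trans ?_ (h2 (u i - M * g) (u (i + 1) - u i) (by rw [hHcast]; exact hl1) (by omega) (by omega))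
        |>.trans_eq ?_
      · exact_mod_cast e1
      · rw [hHcast, hLam]
    · have e1 : F i = ∅ := by
        rw [hF, filter_eq_empty_iff]
        intro p hp h7
        rw [mem_range] at hp
        have := h7.1
        omega
      rw [e1, card_empty]
      push_cast
      have : 0 ≤ (u (i + 1) : ℝ) - u i := by linarith
      positivity
  -- the total
  have hTlow : c₀ / 2 * (X / Lam) ≤ ∑ i ∈ range R, ((F i).card : ℝ) := by
    have e1 : c₀ * X / Lam ≤ ∑ i ∈ range R, ((F i).card : ℝ) + R * h := by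
      refine le_trans ?_ hfin1
      rw [hLam]
      exact h1
    have e2 : (R : ℝ) * h ≤ c₀ / 2 * (X / Lam) := by
      have e3 : (h : ℝ) ≤ L * M := by exact_mod_cast hhL
      have e4 : (R : ℝ) ≤ 4 * X / (X : ℝ) ^ θ := by rwa [le_div_iff₀ hXθ]
      have e5 : 8 * (L * M : ℝ) / c₀ * Lam ≤ (X : ℝ) ^ θ := by
        refine le_trans ?_ (hLam ▸ h4)
        apply mul_le_mul_of_nonneg_right _ hLam0.le
        have : 8 * (L * M : ℝ) / c₀ ≤ 8 * (L * M + 1) / c₀ := by gcongr; linarith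
        linarith
      have e6 : 8 * (L * M : ℝ) * Lam ≤ c₀ * (X : ℝ) ^ θ := by
        calc 8 * (L * M : ℝ) * Lam = c₀ * (8 * (L * M : ℝ) / c₀ * Lam) := by field_simp
          _ ≤ c₀ * (X : ℝ) ^ θ := mul_le_mul_of_nonneg_left e5 hc₀.le
      calc (R : ℝ) * h ≤ 4 * X / (X : ℝ) ^ θ * (L * M) := by gcongr
        _ = X / Lam * (4 * (L * M) * Lam / (X : ℝ) ^ θ) := by field_simp
        _ ≤ X / Lam * (c₀ / 2) := by
            apply mul_le_mul_of_nonneg_left _ (by positivity)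
            rw [div_le_iff₀ hXθ]
            linarith
        _ = _ := by ring
    have e3 : c₀ * X / Lam = c₀ / 2 * (X / Lam) + c₀ / 2 * (X / Lam) := by ring
    linarith
  set P : ℕ → Prop := fun i => c * ((u (i + 1) : ℝ) - u i) / Real.log X ^ 45 ≤
          (Set.ncard {p : ℕ | u i < p ∧ p + h ≤ u (i + 1) ∧ Follow M a h p} : ℝ) with hP
  have hbad : ∀ i ∈ (range R).filter (fun i => ¬ P i), ((F i).card : ℝ) ≤ c * ((u (i + 1) : ℝ) - u i) / Lam := by
    intro i hi
    rw [mem_filter, hP] at hi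
    have e1 := (not_le.1 hi.2).le
    rw [← hLam] at e1
    refine le_trans ?_ e1
    rw [← Set.ncard_coe_finset, Nat.cast_le]
    refine Set.ncard_le_ncard (fun p hp => ?_) ((Set.finite_Iic (u (i + 1))).subset fun p hp => ?_)
    · rw [mem_coe, hF, mem_filter] at hp
      obtain ⟨-, h7, h8, h9, -⟩ := hp
      exact ⟨h7, h8, h9⟩
    · have := hp.2.1
      show p ≤ u (i + 1)
      omega
  have hlen0 : ∀ i ∈ range R, (0 : ℝ) ≤ (u (i + 1) : ℝ) - u i := by
    intro i hi
    exact hXθ.le.trans (hlen i (mem_range.1 hi)).1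
  have hsplit := sum_filter_add_sum_filter_not (range R) P (fun i => ((F i).card : ℝ))
  have hg1 : ∑ i ∈ (range R).filter P, ((F i).card : ℝ) ≤
      C / Lam * ∑ i ∈ (range R).filter P, ((u (i + 1) : ℝ) - u i) := by
    rw [mul_sum]
    refine sum_le_sum fun i hi => ?_
    refine (hupm i (mem_filter.1 hi).1).trans_eq ?_
    ring
  have hg2 : ∑ i ∈ (range R).filter (fun i => ¬ P i), ((F i).card : ℝ) ≤ c / Lam * (4 * X) := by
    calc ∑ i ∈ (range R).filter (fun i => ¬ P i), ((F i).card : ℝ) ≤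
        ∑ i ∈ (range R).filter (fun i => ¬ P i), c / Lam * ((u (i + 1) : ℝ) - u i) := by
          refine sum_le_sum fun i hi => (hbad i hi).trans_eq ?_
          ring
      _ ≤ ∑ i ∈ range R, c / Lam * ((u (i + 1) : ℝ) - u i) :=
          sum_le_sum_of_subset_of_nonneg (filter_subset _ _) fun i hi _ =>
            mul_nonneg (by positivity) (hlen0 i hi)
      _ = c / Lam * (u R - u 0) := by rw [← mul_sum, htele]
      _ ≤ c / Lam * (4 * X) := by
          apply mul_le_mul_of_nonneg_left _ (by positivity)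
          have e2 : (u R : ℝ) ≤ 4 * X := by exact_mod_cast huR4
          have e3 : (0 : ℝ) ≤ u 0 := Nat.cast_nonneg _
          linarith
  obtain ⟨W, hW⟩ : ∃ W : ℝ, W = ∑ i ∈ (range R).filter P, ((u (i + 1) : ℝ) - u i) := ⟨_, rfl⟩
  rw [← hW] at hg1
  have hfin : c₀ / 2 * (X / Lam) ≤ C / Lam * W + c / Lam * (4 * X) := by linarith
  have hfin2 : c₀ / 2 * X ≤ C * W + c * (4 * X) := by
    have e1 : c₀ / 2 * (X / Lam) = (c₀ / 2 * X) / Lam := by ring
    have e2 : C / Lam * W + c / Lam * (4 * X) = (C * W + c * (4 * X)) / Lam := by ring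
    rw [e1, e2, div_le_div_iff_of_pos_right hLam0] at hfin
    exact hfin
  have hc1 : c ≤ c₀ / 16 := min_le_left _ _
  have hc2 : c ≤ c₀ / (4 * C) := min_le_right _ _
  have hc3 : C * c ≤ c₀ / 4 := by
    rw [le_div_iff₀ (by positivity)] at hc2
    linarith
  have hCW : c₀ / 4 * X ≤ C * W := by nlinarith
  have hend : C * (c * X) ≤ C * W := by nlinarith
  have := le_of_mul_le_mul_left hend hC
  rw [hW] at this
  exact this

end Pool.Agent.N790.WG
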