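import Mathlib
import Pool.Agent.X34.E.E20
import Pool.Agent.N790.WG.Win

/-! Regular points of the set of the consecutive primes with one gap, divisions into intervals of length
at least `C (log X) ^ 45` (helper790). -/

set_option autoImplicit false

open Finset Filter

namespace Pool.Agent.N790.WG

open Pool.Agent.H95R2.BG.LF Pool.Agent.X34.E
open Pool.Agent.TH977.PW (N RightOrder Irregular)

/-- all intervals `(m - s, m + t]` with `s, t ≤ X / 2` of length at least `(log X) ^ 45 / c` contain the right order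
of elements of `A` -/
def Reg (A : Set ℕ) (c : ℝ) (X m : ℕ) : Prop :=
  ∀ s t : ℕ, 2 * s ≤ X → 2 * t ≤ X → Real.log X ^ 45 ≤ c * (s + t) →
    c * (s + t) / Real.log X ^ 45 ≤ N A (m - s) (m + t) ∧
      (N A (m - s) (m + t) : ℝ) ≤ (s + t) / (c * Real.log X ^ 45)

theorem reg_of (A : Set ℕ) (c₁ c : ℝ) (hc : 0 < c) (hcc : 2 ^ 45 * c ≤ c₁) (X Z Y m : ℕ) (hX3 : 3 ≤ X)
    (hXZ : X ≤ Z) (hZ : Z ≤ 3 * X) (hY : ∀ s, 2 * s ≤ X → s ≤ Y) (h : RightOrder A 45 c₁ Z Y m) :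
    Reg A c X m := by
  intro s t hs ht hL
  have hXr : (3 : ℝ) ≤ X := by exact_mod_cast hX3
  have hX0 : (0 : ℝ) < X := by linarith
  have hZr : (X : ℝ) ≤ Z := by exact_mod_cast hXZ
  have hZr3 : (Z : ℝ) ≤ 3 * X := by exact_mod_cast hZ
  have hlog0 : 0 < Real.log X := Real.log_pos (by linarith)
  have hl1 : Real.log X ≤ Real.log Z := Real.log_le_log hX0 hZr
  have hl2 : Real.log Z ≤ 2 * Real.log X := by
    calc Real.log Z ≤ Real.log ((X : ℝ) ^ 2) := Real.log_le_log (by linarith) (by nlinarith)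
      _ = 2 * Real.log X := by rw [Real.log_pow]; norm_num
  obtain ⟨L, hLd⟩ : ∃ L, L = Real.log X ^ 45 := ⟨_, rfl⟩
  obtain ⟨LZ, hLZd⟩ : ∃ L, L = Real.log Z ^ 45 := ⟨_, rfl⟩
  have hL0 : 0 < L := by rw [hLd]; positivity
  have hLZ1 : L ≤ LZ := by
    rw [hLd, hLZd]
    exact pow_le_pow_left₀ hlog0.le hl1 45
  have hLZ2 : LZ ≤ 2 ^ 45 * L := by
    rw [hLd, hLZd, ← mul_pow]
    exact pow_le_pow_left₀ (hlog0.le.trans hl1) hl2 45
  have hLZ0 : 0 < LZ := hL0.trans_le hLZ1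
  rw [← hLd] at hL ⊢
  have hst : (0 : ℝ) ≤ (s : ℝ) + t := by positivity
  have hc1 : 0 < c₁ := lt_of_lt_of_le (by positivity) hcc
  have h1 := h s t (hY s hs) (hY t ht) (by
    rw [← hLZd]
    calc LZ ≤ 2 ^ 45 * L := hLZ2
      _ ≤ 2 ^ 45 * (c * (s + t)) := mul_le_mul_of_nonneg_left hL (by positivity)
      _ = 2 ^ 45 * c * (s + t) := by ring
      _ ≤ c₁ * (s + t) := mul_le_mul_of_nonneg_right hcc hst)
  rw [← hLZd] at h1
  constructor
  · refine le_trans ?_ h1.1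
    rw [div_le_div_iff₀ hL0 hLZ0]
    calc c * (s + t) * LZ ≤ c * (s + t) * (2 ^ 45 * L) :=
          mul_le_mul_of_nonneg_left hLZ2 (mul_nonneg hc.le hst)
      _ = 2 ^ 45 * c * (s + t) * L := by ring
      _ ≤ c₁ * (s + t) * L :=
          mul_le_mul_of_nonneg_right (mul_le_mul_of_nonneg_right hcc hst) hL0.le
  · refine h1.2.trans ?_
    have hcle : c ≤ c₁ := by
      refine le_trans ?_ hcc
      linarith
    apply div_le_div_of_nonneg_left hst (by positivity)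
    exact mul_le_mul hcle hLZ1 hL0.le hc1.le

open Classical in
theorem reg_n (hE : Eng) (M a : ℕ) (hM0 : 0 < M) (ha : a.Coprime M) (G : Finset ℕ) (hG : G.card = 45)
    (hadm : ∀ p : ℕ, p.Prime → ¬ p ∣ M → ∃ r : ℕ, ∀ g ∈ G, ¬ p ∣ r + g) :
    ∃ c : ℝ, 0 < c ∧ ∀ᶠ X : ℕ in atTop, ∃ g ∈ G, ∃ g' ∈ G, g < g' ∧ ∃ S : Set ℕ,
      (∀ n ∈ S, Follow M a ((g' - g) * M) (n + M * g)) ∧
      c * X / Real.log X ^ 45 ≤ (Set.ncard {n : ℕ | X < n ∧ n + M * g + (g' - g) * M < 3 * X ∧ n ∈ S ∧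
        Reg S c X n} : ℝ) := by
  obtain ⟨κ, hκ, hgr⟩ := gaps_rough hE
  obtain ⟨c₀, hc₀, hlow⟩ := hgr M a hM0 ha G hG hadm
  have : Nonempty (Fin 45) := ⟨0⟩
  have hAdm := adm_G M hM0 G hG hadm
  have hcast : ∀ (m b : ℕ), ((1 : ℕ) : ℤ) * (m : ℤ) + ((b : ℕ) : ℤ) = ((m + b : ℕ) : ℤ) := by
    intro m b
    push_cast
    ring
  obtain ⟨r0, hr0, hfin⟩ := Pool.Agent.TH977.PW.final_lin (ι := Fin 45) (fun _ => 1)
    (fun i => ((M * G.orderEmbOfFin hG i : ℕ) : ℤ)) (fun _ => one_pos)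
    (fun i => by rw [Nat.cast_one]; exact isCoprime_one_left)
    (fun i j _ hij => by
      have h1 : M * G.orderEmbOfFin hG i = M * G.orderEmbOfFin hG j := by exact_mod_cast hij
      exact (G.orderEmbOfFin hG).injective (Nat.eq_of_mul_eq_mul_left hM0 h1))
    (fun p hp => by
      obtain ⟨m, hm⟩ := hAdm.2.2 p hp
      refine ⟨m, fun i hi => hm i ?_⟩
      rw [hcast, Int.natCast_dvd_natCast] at hi
      rw [one_mul]
      exact hi)
    (fun r => {n | ∀ g'' ∈ G, ∀ p : ℕ, p.Prime → p ∣ n + M * g'' → (n : ℝ) ^ (1 / (r : ℝ)) < (p : ℝ)})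
    (fun _ => Set.univ) 45 (Fintype.card_fin 45)
    (fun r m hr hm i p hp hd => hm _ (G.orderEmbOfFin_mem hG i) p hp (by
      rw [hcast, Int.natCast_dvd_natCast] at hd
      exact hd))
    (fun _ _ _ _ _ => Set.mem_univ _) (1 / 2) (by norm_num) (by norm_num)
  set r : ℕ := max r0 ⌈2 / κ⌉₊ with hr
  have hrκ : 2 / κ ≤ r := (Nat.le_ceil _).trans (by exact_mod_cast le_max_right _ _)
  have hr0' : (0 : ℝ) < r := lt_of_lt_of_le (by positivity) hrκ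
  obtain ⟨c₁, hc₁, hδ⟩ := (hfin r (le_max_left _ _)).2 (c₀ / 12) (by positivity)
  obtain ⟨B, hB⟩ := hδ 1 one_pos
  obtain ⟨X₀, hX₀⟩ := eventually_atTop.1 hB
  have hsq : ∀ᶠ X : ℕ in atTop, (4 : ℝ) * (X : ℝ) ^ (1 / 2 : ℝ) * 2 ≤ X := by
    filter_upwards [eventually_ge_atTop 64] with X hX
    have hXr : (64 : ℝ) ≤ X := by exact_mod_cast hX
    rw [← Real.sqrt_eq_rpow]
    have h8 : (8 : ℝ) ≤ √(X : ℝ) := by
      rw [Real.le_sqrt (by norm_num) (by linarith)]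
      linarith
    have hsq := Real.mul_self_sqrt (show (0 : ℝ) ≤ X by linarith)
    nlinarith
  refine ⟨min (c₀ / 2) (c₁ / 2 ^ 45), by positivity, ?_⟩
  filter_upwards [tendsto_natCast_atTop_atTop.eventually hlow, eventually_ge_atTop (X₀ + 100), hsq]
    with X h1 h2 hXsq
  obtain ⟨g, hg, g', hg', hgg, h1⟩ := h1
  refine ⟨g, hg, g', hg', hgg, ?_⟩
  set c : ℝ := min (c₀ / 2) (c₁ / 2 ^ 45) with hc
  have hcpos : 0 < c := by positivity
  obtain ⟨h, hh⟩ : ∃ h : ℕ, h = (g' - g) * M := ⟨_, rfl⟩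
  rw [← hh] at h1 ⊢
  have hX3 : (3 : ℝ) ≤ X := by exact_mod_cast (by omega : 3 ≤ X)
  have hX0 : (0 : ℝ) < X := by linarith
  have hlog0 : 0 < Real.log X := Real.log_pos (by linarith)
  obtain ⟨L, hLd⟩ : ∃ L, L = Real.log X ^ 45 := ⟨_, rfl⟩
  have hL0 : 0 < L := by rw [hLd]; positivity
  set S : Set ℕ := {n | Follow M a h (n + M * g) ∧
    ∀ g'' ∈ G, ∀ p : ℕ, p.Prime → p ∣ n + M * g'' → (n : ℝ) ^ (1 / (r : ℝ)) < (p : ℝ)} with hS
  refine ⟨S, fun n hn => hn.1, ?_⟩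
  -- the windows
  obtain ⟨Z, hZ0, hZs⟩ : ∃ Z : ℕ → ℕ, Z 0 = X ∧ ∀ i, Z (i + 1) = Z i + Z i / 2 :=
    ⟨fun i => Nat.rec X (fun _ z => z + z / 2) i, rfl, fun i => rfl⟩
  have hZ1 := hZs 0
  have hZ2 := hZs 1
  have hZ3 := hZs 2
  rw [hZ0] at hZ1
  norm_num at hZ1 hZ2 hZ3
  have hZX : ∀ i < 3, X ≤ Z i ∧ Z i ≤ 3 * X := by
    intro i hi
    interval_cases i <;> constructor <;> omega
  have hZ3X : 3 * X ≤ Z 3 := by omega
  set Irr : ℕ → Finset ℕ := fun i => (Ioc (Z i) (Z i + Z i / 2)).filter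
    (fun m => m ∈ Irregular S 45 c₁ 1 B (Z i) (Z i / 2)) with hIrr
  have hIrrc : ∀ i < 3, ((Irr i).card : ℝ) ≤ c₀ / 12 * (2 * X / L) := by
    intro i hi
    obtain ⟨hz1, hz2⟩ := hZX i hi
    have hz1r : (X : ℝ) ≤ Z i := by exact_mod_cast hz1
    have hz2r : (Z i : ℝ) ≤ 3 * X := by exact_mod_cast hz2
    have hhalf : ((Z i / 2 : ℕ) : ℝ) ≤ 2 * X := by
      have : Z i / 2 ≤ 2 * X := by omega
      exact_mod_cast this
    have e1 := hX₀ (Z i) (by omega) (Z i / 2) (by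
      have h5 : (Z i : ℝ) ^ (1 / 2 : ℝ) ≤ 2 * (X : ℝ) ^ (1 / 2 : ℝ) := by
        calc (Z i : ℝ) ^ (1 / 2 : ℝ) ≤ (4 * X : ℝ) ^ (1 / 2 : ℝ) :=
              Real.rpow_le_rpow (by linarith) (by linarith) (by norm_num)
          _ = 2 * (X : ℝ) ^ (1 / 2 : ℝ) := by
              rw [Real.mul_rpow (by norm_num) hX0.le, ← Real.sqrt_eq_rpow, ← Real.sqrt_eq_rpow]
              rw [show (4 : ℝ) = 2 ^ 2 by norm_num, Real.sqrt_sq (by norm_num)]
      have h6 : (X : ℝ) / 4 ≤ ((Z i / 2 : ℕ) : ℝ) := by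
        have : X ≤ 4 * (Z i / 2) := by omega
        have : (X : ℝ) ≤ 4 * ((Z i / 2 : ℕ) : ℝ) := by exact_mod_cast this
        linarith
      linarith) (by omega) S (fun n hn => hn.2)
    have e2 : ((Irr i).card : ℝ) ≤ c₀ / 12 * ((Z i / 2 : ℕ) : ℝ) / Real.log (Z i) ^ 45 := by
      refine le_trans (le_of_eq ?_) e1
      rw [hIrr]
      unfold Pool.Agent.TH977.PW.N
      rfl
    refine e2.trans ?_
    have hlz : Real.log X ≤ Real.log (Z i) := Real.log_le_log hX0 hz1r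
    have e3 : L ≤ Real.log (Z i) ^ 45 := by
      rw [hLd]
      exact pow_le_pow_left₀ hlog0.le hlz 45
    calc c₀ / 12 * ((Z i / 2 : ℕ) : ℝ) / Real.log (Z i) ^ 45 ≤ c₀ / 12 * (2 * X) / L := by
          apply div_le_div₀ (by positivity) _ hL0 e3
          exact mul_le_mul_of_nonneg_left hhalf (by positivity)
      _ = c₀ / 12 * (2 * X / L) := by ring
  -- the inclusion
  have hfinG : ({n : ℕ | X < n ∧ n + M * g + h < 3 * X ∧ n ∈ S ∧ Reg S c X n}).Finite :=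
    (Set.finite_Iio (3 * X)).subset fun n hn => by
      have := hn.2.1
      show n < 3 * X
      omega
  have hcov : {n : ℕ | (X : ℝ) < n ∧ ((n + M * g + h : ℕ) : ℝ) < 3 * X ∧ Follow M a h (n + M * g) ∧
      ∀ g'' ∈ G, ∀ p : ℕ, p.Prime → (p : ℝ) ≤ (X : ℝ) ^ κ → ¬ p ∣ n + M * g''} ⊆
      {n : ℕ | X < n ∧ n + M * g + h < 3 * X ∧ n ∈ S ∧ Reg S c X n} ∪
        (((range 3).biUnion Irr : Finset ℕ) : Set ℕ) := by
    rintro n ⟨hn1, hn2, hn3, hn4⟩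
    have hn1' : X < n := by exact_mod_cast hn1
    have hn2' : n + M * g + h < 3 * X := by exact_mod_cast hn2
    have hnS : n ∈ S := by
      refine ⟨hn3, fun g'' hg'' p hp hd => ?_⟩
      by_contra hlt
      push Not at hlt
      refine hn4 g'' hg'' p hp (hlt.trans ?_) hd
      have hnr : (n : ℝ) ≤ (X : ℝ) ^ (2 : ℝ) := by
        have e1 : (n : ℝ) ≤ 3 * X := by exact_mod_cast (by omega : n ≤ 3 * X)
        rw [show (2 : ℝ) = ((2 : ℕ) : ℝ) by norm_num, Real.rpow_natCast]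
        nlinarith
      calc (n : ℝ) ^ (1 / (r : ℝ)) ≤ ((X : ℝ) ^ (2 : ℝ)) ^ (1 / (r : ℝ)) :=
            Real.rpow_le_rpow (Nat.cast_nonneg _) hnr (by positivity)
        _ = (X : ℝ) ^ (2 * (1 / (r : ℝ))) := by rw [← Real.rpow_mul hX0.le]
        _ ≤ (X : ℝ) ^ κ := by
            apply Real.rpow_le_rpow_of_exponent_le (by linarith)
            rw [mul_one_div, div_le_iff₀ hr0']
            rw [div_le_iff₀ hκ] at hrκ
            linarith
    obtain ⟨i, hi, hi1, hi2⟩ := find_i Z 3 n (by omega) (by omega)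
    rw [hZs] at hi2
    by_cases hirr : n ∈ Irregular S 45 c₁ 1 B (Z i) (Z i / 2)
    · right
      rw [mem_coe, mem_biUnion]
      refine ⟨i, mem_range.2 hi, ?_⟩
      rw [hIrr, mem_filter, mem_Ioc]
      exact ⟨⟨hi1, hi2⟩, hirr⟩
    · left
      refine ⟨hn1', hn2', hnS, ?_⟩
      have hro : RightOrder S 45 c₁ (Z i) (Z i / 2) n := by
        by_contra hro
        exact hirr ⟨hnS, fun hcon => hro hcon.1⟩
      obtain ⟨hz1, hz2⟩ := hZX i hi
      refine reg_of S c₁ c hcpos ?_ X (Z i) (Z i / 2) n (by omega) hz1 hz2 (fun s hs => by omega) hro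
      have e1 : c ≤ c₁ / 2 ^ 45 := min_le_right _ _
      rw [le_div_iff₀ (by positivity)] at e1
      linarith
  have hcount : (Set.ncard {n : ℕ | (X : ℝ) < n ∧ ((n + M * g + h : ℕ) : ℝ) < 3 * X ∧ Follow M a h (n + M * g) ∧
      ∀ g'' ∈ G, ∀ p : ℕ, p.Prime → (p : ℝ) ≤ (X : ℝ) ^ κ → ¬ p ∣ n + M * g''} : ℝ) ≤
      (Set.ncard {n : ℕ | X < n ∧ n + M * g + h < 3 * X ∧ n ∈ S ∧ Reg S c X n} : ℝ) +
        3 * (c₀ / 12 * (2 * X / L)) := by
    have e1 := Set.ncard_le_ncard hcov (hfinG.union (Finset.finite_toSet _))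
    have e2 := e1.trans (Set.ncard_union_le _ _)
    rw [Set.ncard_coe_finset] at e2
    have e3 : (((range 3).biUnion Irr).card : ℝ) ≤ 3 * (c₀ / 12 * (2 * X / L)) := by
      have e4 : (((range 3).biUnion Irr).card : ℝ) ≤ ∑ i ∈ range 3, ((Irr i).card : ℝ) := by
        exact_mod_cast card_biUnion_le
      refine e4.trans ((sum_le_sum fun i hi => hIrrc i (mem_range.1 hi)).trans (le_of_eq ?_))
      rw [sum_const, card_range, nsmul_eq_mul]
      norm_num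
    have e5 : (Set.ncard {n : ℕ | (X : ℝ) < n ∧ ((n + M * g + h : ℕ) : ℝ) < 3 * X ∧ Follow M a h (n + M * g) ∧
      ∀ g'' ∈ G, ∀ p : ℕ, p.Prime → (p : ℝ) ≤ (X : ℝ) ^ κ → ¬ p ∣ n + M * g''} : ℝ) ≤
      (Set.ncard {n : ℕ | X < n ∧ n + M * g + h < 3 * X ∧ n ∈ S ∧ Reg S c X n} : ℝ) +
        (((range 3).biUnion Irr).card : ℝ) := by exact_mod_cast e2
    linarith
  rw [← hLd] at h1 ⊢
  have hfin2 : c₀ * X / L ≤ (Set.ncard {n : ℕ | X < n ∧ n + M * g + h < 3 * X ∧ n ∈ S ∧ Reg S c X n} : ℝ) +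
        3 * (c₀ / 12 * (2 * X / L)) := h1.trans hcount
  have e6 : c₀ * X / L = c₀ / 2 * X / L + 3 * (c₀ / 12 * (2 * X / L)) := by ring
  have e7 : c * X / L ≤ c₀ / 2 * X / L := by
    have : c ≤ c₀ / 2 := min_le_left _ _
    gcongr
  linarith

open Classical in
theorem N_shift (S : Set ℕ) (b x y : ℕ) : N {p | ∃ n ∈ S, p = n + b} (x + b) (y + b) = N S x y := by
  unfold Pool.Agent.TH977.PW.N
  symm
  apply Finset.card_bij (fun n _ => n + b)
  · intro n hn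
    rw [mem_filter, mem_Ioc] at hn ⊢
    exact ⟨⟨by omega, by omega⟩, n, hn.2, rfl⟩
  · intro n _ m _ h
    omega
  · intro p hp
    rw [mem_filter, mem_Ioc] at hp
    obtain ⟨hp1, n, hn, rfl⟩ := hp
    refine ⟨n, ?_, rfl⟩
    rw [mem_filter, mem_Ioc]
    exact ⟨⟨by omega, by omega⟩, hn⟩

open Classical in
/-- regular points of a set of primes followed by one gap -/
theorem reg_p (hE : Eng) (M a : ℕ) (hM0 : 0 < M) (ha : a.Coprime M) (G : Finset ℕ) (hG : G.card = 45)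
    (hadm : ∀ p : ℕ, p.Prime → ¬ p ∣ M → ∃ r : ℕ, ∀ g ∈ G, ¬ p ∣ r + g) :
    ∃ c : ℝ, 0 < c ∧ ∀ᶠ X : ℕ in atTop, ∃ g ∈ G, ∃ g' ∈ G, g < g' ∧ ∃ P : Set ℕ,
      (∀ p ∈ P, Follow M a ((g' - g) * M) p) ∧
      c * X / Real.log X ^ 45 ≤ (Set.ncard {p : ℕ | X < p ∧ p + (g' - g) * M < 3 * X ∧ p ∈ P ∧
        Reg P c X p} : ℝ) := by
  obtain ⟨c, hc, h⟩ := reg_n hE M a hM0 ha G hG hadm
  refine ⟨c, hc, ?_⟩
  filter_upwards [h] with X hX
  obtain ⟨g, hg, g', hg', hgg, S, hS, hX⟩ := hX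
  refine ⟨g, hg, g', hg', hgg, {p | ∃ n ∈ S, p = n + M * g}, ?_, hX.trans ?_⟩
  · rintro p ⟨n, hn, rfl⟩
    exact hS n hn
  · rw [Nat.cast_le]
    refine Set.ncard_le_ncard_of_injOn (fun n => n + M * g) ?_ ?_ ?_
    · rintro n ⟨h1, h2, h3, h4⟩
      refine ⟨by omega, h2, ⟨n, h3, rfl⟩, ?_⟩
      intro s t hs ht hL
      have h5 := h4 s t hs ht hL
      have e1 : n + M * g - s = (n - s) + M * g := by omega
      have e2 : n + M * g + t = (n + t) + M * g := by omega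
      rw [e1, e2, N_shift]
      exact h5
    · intro n _ m _ h
      simp only at h
      omega
    · exact (Set.finite_Iio (3 * X)).subset fun p hp => by
        have := hp.2.1
        show p < 3 * X
        omega

end Pool.Agent.N790.WG
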