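import Mathlib
import Pool.Agent.N790.WG.Reg

/-! Divisions into intervals of length at least `C (log X) ^ 45`. -/

set_option autoImplicit false

open Finset Filter

namespace Pool.Agent.N790.WG

open Pool.Agent.H95R2.BG.LF Pool.Agent.X34.E
open Pool.Agent.TH977.PW (N)

open Classical in
/-- regular points and divisions -/
theorem main (hE : Eng) (M a : ℕ) (hM0 : 0 < M) (ha : a.Coprime M) (G : Finset ℕ) (hG : G.card = 45)
    (hadm : ∀ p : ℕ, p.Prime → ¬ p ∣ M → ∃ r : ℕ, ∀ g ∈ G, ¬ p ∣ r + g) :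
    ∃ c : ℝ, 0 < c ∧ ∀ᶠ X : ℕ in atTop, ∃ g ∈ G, ∃ g' ∈ G, g < g' ∧ ∃ P : Set ℕ,
      (∀ p ∈ P, Follow M a ((g' - g) * M) p) ∧
      c * X / Real.log X ^ 45 ≤ (Set.ncard {p : ℕ | X < p ∧ p < 3 * X ∧ p ∈ P ∧ Reg P c X p} : ℝ) ∧
      ∀ (R : ℕ) (u : ℕ → ℕ), u 0 ≤ X → 3 * X ≤ u R → u R ≤ 4 * X →
        (∀ i < R, Real.log X ^ 45 ≤ c * ((u (i + 1) : ℝ) - u i) ∧ 2 * u (i + 1) ≤ 2 * u i + X) →
        c * X ≤ ∑ i ∈ (range R).filter (fun i => c * ((u (i + 1) : ℝ) - u i) / Real.log X ^ 45 ≤
          (Set.ncard {p : ℕ | u i < p ∧ p + (g' - g) * M ≤ u (i + 1) ∧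
            Follow M a ((g' - g) * M) p} : ℝ)), ((u (i + 1) : ℝ) - u i) := by
  obtain ⟨c₂, hc₂, h⟩ := reg_p hE M a hM0 ha G hG hadm
  obtain ⟨L₀, hL₀⟩ : ∃ L : ℕ, ∀ g ∈ G, g ≤ L :=
    ⟨G.sup id, fun g hg => Finset.le_sup (f := id) hg⟩
  obtain ⟨Hm, hHm⟩ : ∃ Hm : ℝ, Hm = (L₀ * M : ℕ) + 1 := ⟨_, rfl⟩
  have hHm1 : 1 ≤ Hm := by
    rw [hHm]
    have : (0 : ℝ) ≤ ((L₀ * M : ℕ) : ℝ) := Nat.cast_nonneg _
    linarith
  have hHm0 : 0 < Hm := by linarith
  have hlogN : Tendsto (fun N : ℕ => Real.log (N : ℝ)) atTop atTop :=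
    Real.tendsto_log_atTop.comp tendsto_natCast_atTop_atTop
  obtain ⟨c, hcd⟩ : ∃ c, c = min (min (c₂ / 4) (c₂ / (8 * Hm))) (c₂ ^ 2 / 2) := ⟨_, rfl⟩
  have hcpos : 0 < c := by rw [hcd]; positivity
  have hca : c ≤ c₂ / 4 := by rw [hcd]; exact (min_le_left _ _).trans (min_le_left _ _)
  have hcb : c ≤ c₂ / (8 * Hm) := by rw [hcd]; exact (min_le_left _ _).trans (min_le_right _ _)
  have hcc : c ≤ c₂ ^ 2 / 2 := by rw [hcd]; exact min_le_right _ _
  refine ⟨c, hcpos, ?_⟩
  filter_upwards [h, hlogN.eventually_ge_atTop (2 * Hm * c + 1), eventually_ge_atTop 3] with X hX hXl hX3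
  obtain ⟨g, hg, g', hg', hgg, P, hP, hX⟩ := hX
  refine ⟨g, hg, g', hg', hgg, P, hP, ?_, ?_⟩
  · -- the regular points, with the smaller constant
    have hXr : (3 : ℝ) ≤ X := by exact_mod_cast hX3
    have hlog0 : 0 < Real.log X := Real.log_pos (by linarith)
    have hL0 : 0 < Real.log X ^ 45 := by positivity
    have e1 : c * X / Real.log X ^ 45 ≤ c₂ * X / Real.log X ^ 45 := by
      have : c ≤ c₂ := by linarith
      gcongr
    refine e1.trans (hX.trans ?_)
    rw [Nat.cast_le]
    refine Set.ncard_le_ncard ?_ ((Set.finite_Iio (3 * X)).subset fun p hp => hp.2.1)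
    rintro p ⟨h1, h2, h3, h4⟩
    refine ⟨h1, by omega, h3, ?_⟩
    intro s t hs ht hst
    have hst0 : (0 : ℝ) ≤ (s : ℝ) + t := by positivity
    have hcc2 : c ≤ c₂ := by linarith
    have h5 := h4 s t hs ht (hst.trans (mul_le_mul_of_nonneg_right hcc2 hst0))
    constructor
    · refine le_trans ?_ h5.1
      rw [div_le_div_iff_of_pos_right hL0]
      exact mul_le_mul_of_nonneg_right hcc2 hst0
    · refine h5.2.trans ?_
      apply div_le_div_of_nonneg_left hst0 (by positivity)
      exact mul_le_mul_of_nonneg_right hcc2 hL0.le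
  · intro R u hu0 huR huR4 hlen
    have hXr : (3 : ℝ) ≤ X := by exact_mod_cast hX3
    have hX0 : (0 : ℝ) < X := by linarith
    have hlog1 : 1 ≤ Real.log X := by
      have : 0 ≤ 2 * Hm * c := by positivity
      linarith
    have hlog0 : 0 < Real.log X := by linarith
    obtain ⟨L, hLd⟩ : ∃ L, L = Real.log X ^ 45 := ⟨_, rfl⟩
    have hL0 : 0 < L := by rw [hLd]; positivity
    have hLH : 2 * Hm * c ≤ L := by
      have e1 : Real.log X ≤ Real.log X ^ 45 := le_self_pow₀ hlog1 (by norm_num)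
      rw [hLd]
      linarith
    obtain ⟨h, hh⟩ : ∃ h : ℕ, h = (g' - g) * M := ⟨_, rfl⟩
    rw [← hh] at hX hP ⊢
    rw [← hLd] at hX
    have hhH : (h : ℝ) ≤ Hm := by
      have e1 : h ≤ L₀ * M := by
        rw [hh]
        exact Nat.mul_le_mul_right _ ((Nat.sub_le _ _).trans (hL₀ g' hg'))
      have e2 : (h : ℝ) ≤ ((L₀ * M : ℕ) : ℝ) := by exact_mod_cast e1
      rw [hHm]
      linarith
    -- lengths
    have hlenL : ∀ i < R, L ≤ c * ((u (i + 1) : ℝ) - u i) := fun i hi => by
      rw [hLd]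
      exact (hlen i hi).1
    have hlen2 : ∀ i < R, 2 * Hm ≤ (u (i + 1) : ℝ) - u i := by
      intro i hi
      have e1 := hLH.trans (hlenL i hi)
      have e2 : c * (2 * Hm) ≤ c * ((u (i + 1) : ℝ) - u i) := by linarith
      exact le_of_mul_le_mul_left e2 hcpos
    have hmono : ∀ i < R, u i + 2 * h ≤ u (i + 1) := by
      intro i hi
      have e1 := hlen2 i hi
      have e2 : ((u i + 2 * h : ℕ) : ℝ) ≤ (u (i + 1) : ℝ) := by
        push_cast
        linarith
      exact_mod_cast e2
    obtain ⟨htele, -⟩ := tele u R (fun i hi => by have := hmono i hi; omega)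
    have hRL : (R : ℝ) * L ≤ c * (4 * X) := by
      have e1 : ∑ _i ∈ range R, L ≤ ∑ i ∈ range R, c * ((u (i + 1) : ℝ) - u i) :=
        sum_le_sum fun i hi => hlenL i (mem_range.1 hi)
      rw [sum_const, card_range, nsmul_eq_mul, ← mul_sum, htele] at e1
      have e2 : (u R : ℝ) ≤ 4 * X := by exact_mod_cast huR4
      have e3 : (0 : ℝ) ≤ u 0 := Nat.cast_nonneg _
      refine e1.trans (mul_le_mul_of_nonneg_left (by linarith) hcpos.le)
    -- the regular points in the intervals
    set A : Set ℕ := {p : ℕ | X < p ∧ p + h < 3 * X ∧ p ∈ P ∧ Reg P c₂ X p} with hA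
    set F : ℕ → Finset ℕ := fun i => (Ioc (u i) (u (i + 1) - h)).filter (fun p => p ∈ A) with hF
    have hcov : A ⊆ (((range R).biUnion F ∪ (range R).biUnion (fun i => Ioc (u (i + 1) - h) (u (i + 1))) :
        Finset ℕ) : Set ℕ) := by
      intro p hp
      have hp1 := hp.1
      have hp2 := hp.2.1
      obtain ⟨i, hiR, hi1, hi2⟩ := find_i u R p (by omega) (by omega)
      rw [coe_union, Set.mem_union, mem_coe, mem_coe, mem_biUnion, mem_biUnion]
      by_cases hpi : p ≤ u (i + 1) - h
      · left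
        refine ⟨i, mem_range.2 hiR, ?_⟩
        rw [hF, mem_filter, mem_Ioc]
        exact ⟨⟨hi1, hpi⟩, hp⟩
      · right
        refine ⟨i, mem_range.2 hiR, ?_⟩
        rw [mem_Ioc]
        omega
    have hAc : (A.ncard : ℝ) ≤ ∑ i ∈ range R, ((F i).card : ℝ) + R * h := by
      have e1 := Set.ncard_le_ncard hcov (Finset.finite_toSet _)
      rw [Set.ncard_coe_finset] at e1
      have e2 : ((range R).biUnion F ∪ (range R).biUnion (fun i => Ioc (u (i + 1) - h) (u (i + 1)))).card ≤
          ∑ i ∈ range R, (F i).card + R * h := by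
        refine (card_union_le _ _).trans (Nat.add_le_add card_biUnion_le ?_)
        refine card_biUnion_le.trans ?_
        calc ∑ i ∈ range R, (Ioc (u (i + 1) - h) (u (i + 1))).card ≤ ∑ _i ∈ range R, h := by
              refine sum_le_sum fun i _ => ?_
              rw [Nat.card_Ioc]
              omega
          _ = R * h := by rw [sum_const, card_range, smul_eq_mul]
      exact_mod_cast e1.trans e2
    set Q : ℕ → Prop := fun i => c * ((u (i + 1) : ℝ) - u i) / Real.log X ^ 45 ≤
          (Set.ncard {p : ℕ | u i < p ∧ p + h ≤ u (i + 1) ∧ Follow M a h p} : ℝ) with hQ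
    have hkey : ∀ i ∈ range R, (F i).Nonempty → Q i ∧
        ((F i).card : ℝ) ≤ ((u (i + 1) : ℝ) - u i) / (c₂ * L) := by
      intro i hi hne
      rw [mem_range] at hi
      obtain ⟨p, hp⟩ := hne
      rw [hF, mem_filter, mem_Ioc] at hp
      obtain ⟨⟨hp1, hp2⟩, -, -, -, hreg⟩ := hp
      have hm := hmono i hi
      have hl2 := (hlen i hi).2
      have hcast1 : ((p - u i : ℕ) : ℝ) = (p : ℝ) - u i := by
        rw [Nat.cast_sub hp1.le]
      have hcast2 : ((u (i + 1) - h - p : ℕ) : ℝ) = (u (i + 1) : ℝ) - h - p := by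
        rw [Nat.cast_sub hp2, Nat.cast_sub (by omega)]
      have hsum : ((p - u i : ℕ) : ℝ) + ((u (i + 1) - h - p : ℕ) : ℝ) = (u (i + 1) : ℝ) - u i - h := by
        rw [hcast1, hcast2]
        ring
      have hlen3 := hlen2 i hi
      have hhalf : ((u (i + 1) : ℝ) - u i) / 2 ≤ (u (i + 1) : ℝ) - u i - h := by linarith
      have hlpos : 0 < (u (i + 1) : ℝ) - u i := by linarith
      have hreg1 := hreg (p - u i) (u (i + 1) - h - p) (by omega) (by omega) (by
        rw [hsum, ← hLd]
        have e1 := hlenL i hi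
        calc L ≤ c * ((u (i + 1) : ℝ) - u i) := e1
          _ ≤ (c₂ / 4) * ((u (i + 1) : ℝ) - u i) := mul_le_mul_of_nonneg_right hca hlpos.le
          _ ≤ c₂ * (((u (i + 1) : ℝ) - u i) / 2) := by nlinarith
          _ ≤ _ := mul_le_mul_of_nonneg_left hhalf hc₂.le)
      have e1 : p - (p - u i) = u i := by omega
      have e2 : p + (u (i + 1) - h - p) = u (i + 1) - h := by omega
      rw [hsum, e1, e2, ← hLd] at hreg1
      obtain ⟨hlow, hup⟩ := hreg1
      constructor
      · rw [hQ]
        simp only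
        rw [← hLd]
        calc c * ((u (i + 1) : ℝ) - u i) / L ≤ c₂ * ((u (i + 1) : ℝ) - u i - h) / L := by
              rw [div_le_div_iff_of_pos_right hL0]
              calc c * ((u (i + 1) : ℝ) - u i) ≤ (c₂ / 4) * ((u (i + 1) : ℝ) - u i) :=
                    mul_le_mul_of_nonneg_right hca hlpos.le
                _ ≤ c₂ * (((u (i + 1) : ℝ) - u i) / 2) := by nlinarith
                _ ≤ _ := mul_le_mul_of_nonneg_left hhalf hc₂.le
          _ ≤ (N P (u i) (u (i + 1) - h) : ℝ) := hlow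
          _ ≤ _ := by
              unfold Pool.Agent.TH977.PW.N
              rw [← Set.ncard_coe_finset, Nat.cast_le]
              refine Set.ncard_le_ncard (fun x hx => ?_)
                ((Set.finite_Iic (u (i + 1))).subset fun x hx => ?_)
              · rw [mem_coe, mem_filter, mem_Ioc] at hx
                exact ⟨hx.1.1, by omega, hP x hx.2⟩
              · have := hx.2.1
                show x ≤ u (i + 1)
                omega
      · have e3 : ((F i).card : ℝ) ≤ (N P (u i) (u (i + 1) - h) : ℝ) := by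
          unfold Pool.Agent.TH977.PW.N
          rw [Nat.cast_le]
          apply card_le_card
          intro x hx
          rw [hF, mem_filter] at hx
          rw [mem_filter]
          exact ⟨hx.1, hx.2.2.2.1⟩
        refine e3.trans (hup.trans ?_)
        rw [div_le_div_iff_of_pos_right (by positivity)]
        have : (0 : ℝ) ≤ h := Nat.cast_nonneg _
        linarith
    obtain ⟨W, hW⟩ : ∃ W : ℝ, W = ∑ i ∈ (range R).filter Q, ((u (i + 1) : ℝ) - u i) := ⟨_, rfl⟩
    have hFW : ∑ i ∈ range R, ((F i).card : ℝ) ≤ W / (c₂ * L) := by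
      have e1 : ∑ i ∈ range R, ((F i).card : ℝ) = ∑ i ∈ (range R).filter Q, ((F i).card : ℝ) := by
        symm
        apply sum_subset (filter_subset _ _)
        intro i hi hi2
        rw [mem_filter, not_and] at hi2
        by_contra hne
        have hne' : (F i).Nonempty := by
          rw [← card_pos]
          by_contra h0
          apply hne
          have : (F i).card = 0 := by omega
          rw [this, Nat.cast_zero]
        exact hi2 hi (hkey i hi hne').1
      rw [e1, hW, sum_div]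
      refine sum_le_sum fun i hi => ?_
      have hi' := (mem_filter.1 hi).1
      rcases (F i).eq_empty_or_nonempty with h0 | hne
      · rw [h0, card_empty, Nat.cast_zero]
        have := hlen2 i (mem_range.1 hi')
        have : 0 ≤ (u (i + 1) : ℝ) - u i := by linarith
        positivity
      · exact (hkey i hi' hne).2
    have hRh : (R : ℝ) * h ≤ c₂ / 2 * X / L := by
      rw [le_div_iff₀ hL0]
      have e1 : c * (8 * Hm) ≤ c₂ := by rwa [le_div_iff₀ (by positivity)] at hcb
      calc (R : ℝ) * h * L = (R : ℝ) * L * h := by ring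
        _ ≤ c * (4 * X) * h := mul_le_mul_of_nonneg_right hRL (Nat.cast_nonneg _)
        _ ≤ c * (4 * X) * Hm := mul_le_mul_of_nonneg_left hhH (by positivity)
        _ = c * (8 * Hm) / 2 * X := by ring
        _ ≤ c₂ / 2 * X := by
            apply mul_le_mul_of_nonneg_right _ hX0.le
            linarith
    have hfin : c₂ * X / L ≤ W / (c₂ * L) + c₂ / 2 * X / L := by
      have := hX.trans hAc
      linarith
    have hfin2 : c₂ / 2 * X / L ≤ W / (c₂ * L) := by
      have : c₂ * X / L = c₂ / 2 * X / L + c₂ / 2 * X / L := by ring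
      linarith
    rw [div_le_div_iff₀ hL0 (by positivity)] at hfin2
    have hfin3 : c₂ ^ 2 / 2 * X * L ≤ W * L := by
      calc c₂ ^ 2 / 2 * X * L = c₂ / 2 * X * (c₂ * L) := by ring
        _ ≤ W * L := hfin2
    have hfin4 : c₂ ^ 2 / 2 * X ≤ W := le_of_mul_le_mul_right hfin3 hL0
    have hend : c * X ≤ W := (mul_le_mul_of_nonneg_right hcc hX0.le).trans hfin4
    rw [hW] at hend
    exact hend

end Pool.Agent.N790.WG
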